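import Pool.Agent.H248R4.M7

/-!
# The coarse moduli space `M_g` contains an affine line for every `g ≥ 2`

Let `k` be an algebraically closed field of characteristic `0` and `g ≥ 2`.  Consider the curves
`y² = xⁿ + a x + b` with `n = 2 g + 1` and `(n - 1)ⁿ⁻¹ aⁿ + nⁿ bⁿ⁻¹ = 1` (so the discriminant of
`xⁿ + a x + b` is a unit).  The function `T = (n - 1)ⁿ⁻¹ aⁿ` makes the ring `R` of the base finite
over `k[T]`.  Up to isomorphism the curve depends only on `T`: the points of the base above one
value of `T` differ by `(a, b) ↦ (lⁿ⁻¹ a, lⁿ b)`.  The curves at `T = 0` and at `T = 1` are not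
isomorphic.  So the map `Spec R → M_g` given by this smooth family is constant on the fibres of the
finite surjective map `Spec R → 𝔸¹`, hence (`𝔸¹` is normal, characteristic `0`) it comes from a
morphism `𝔸¹ → M_g`, which is not constant.
-/

set_option autoImplicit false

open Polynomial

universe u

namespace Pool.Agent.Results.MP_2eb777_ag.AffineLineInMg

/-- Let `k` be an algebraically closed field of characteristic `0` and `g ≥ 2`.  There are a finite
extension `R` of the polynomial ring `k[T]` and a monic `F` in `R[x]` of degree `2 g + 1`, with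
`F` and `F'` coprime, such that: for each `k`-point `s` of `Spec R` the curve `y² = F_s(x)` has
genus `g`; two points with the same coordinate `T` give isomorphic curves; and not all of these
curves are isomorphic. -/
theorem result : ∀ (k : Type u) [Field k] [IsAlgClosed k] [CharZero k] (g : ℕ), 2 ≤ g →
    ∃ (R : Type u) (_ : CommRing R) (_ : Algebra k R) (_ : Algebra k[X] R)
      (_ : IsScalarTower k k[X] R) (F : R[X]),
      Module.Finite k[X] R ∧ Function.Injective (algebraMap k[X] R) ∧
      F.Monic ∧ F.natDegree = 2 * g + 1 ∧ IsCoprime F (derivative F) ∧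
      (∀ s : R →ₐ[k] k, ∃ hirr : Irreducible (H248.hypPoly (F.map (s : R →+* k))),
        H248.hypGenus (F.map (s : R →+* k)) hirr = g) ∧
      (∀ s s' : R →ₐ[k] k, s (algebraMap k[X] R X) = s' (algebraMap k[X] R X) →
        Nonempty (H248.FF (F.map (s : R →+* k)) ≃ₐ[k] H248.FF (F.map (s' : R →+* k)))) ∧
      ∃ s s' : R →ₐ[k] k,
        IsEmpty (H248.FF (F.map (s : R →+* k)) ≃ₐ[k] H248.FF (F.map (s' : R →+* k))) := by
  intro k _ _ _ g hg
  exact ⟨H248.RB k g, inferInstance, inferInstance, inferInstance, inferInstance, H248.fam k g,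
    H248.main k hg⟩

end Pool.Agent.Results.MP_2eb777_ag.AffineLineInMg
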